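import Mathlib

/-!
# Sampling: objects defined by two elements with few conflicts
-/

set_option autoImplicit false

namespace Pool.Agent.X130.HC

open Finset

variable {α : Type} [DecidableEq α]

/-- the weight of a subset of a random sample -/
def wt (P : Finset α) (p : ℝ) (t : Finset α) : ℝ := p ^ t.card * (1 - p) ^ (P \ t).card

theorem prob (P A K : Finset α) (hA : A ⊆ P) (hK : K ⊆ P) (h : Disjoint A K) (p : ℝ) :
    ∑ t ∈ P.powerset with (A ⊆ t ∧ Disjoint t K), wt P p t = p ^ A.card * (1 - p) ^ K.card := by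
  have key := Finset.prod_add (fun i => if i ∈ K then 0 else p)
    (fun i => if i ∈ A then 0 else 1 - p) P
  have hL : ∏ i ∈ P, ((if i ∈ K then 0 else p) + (if i ∈ A then 0 else 1 - p)) =
      p ^ A.card * (1 - p) ^ K.card := by
    have h1 : ∀ i ∈ P, ((if i ∈ K then 0 else p) + (if i ∈ A then 0 else 1 - p)) =
        (if i ∈ A then p else 1) * (if i ∈ K then (1 - p) else 1) := by
      intro i _
      by_cases ha : i ∈ A
      · have hk : i ∉ K := Finset.disjoint_left.1 h ha
        simp [ha, hk]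
      · by_cases hk : i ∈ K
        · simp [ha, hk]
        · simp [ha, hk]
    rw [Finset.prod_congr rfl h1, Finset.prod_mul_distrib]
    rw [← Finset.prod_filter, ← Finset.prod_filter, Finset.prod_const, Finset.prod_const]
    rw [Finset.filter_mem_eq_inter, Finset.filter_mem_eq_inter, Finset.inter_eq_right.2 hA,
      Finset.inter_eq_right.2 hK]
  rw [hL] at key
  rw [key, Finset.sum_filter]
  apply Finset.sum_congr rfl
  intro t ht
  rw [Finset.mem_powerset] at ht
  have e1 : ∏ i ∈ t, (if i ∈ K then 0 else p) = if Disjoint t K then p ^ t.card else 0 := by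
    split_ifs with hd
    · rw [Finset.prod_congr rfl (fun i hi => if_neg (Finset.disjoint_left.1 hd hi)),
        Finset.prod_const]
    · rw [Finset.not_disjoint_iff] at hd
      obtain ⟨i, h1, h2⟩ := hd
      exact Finset.prod_eq_zero h1 (if_pos h2)
  have e2 : ∏ i ∈ P \ t, (if i ∈ A then 0 else 1 - p) =
      if A ⊆ t then (1 - p) ^ (P \ t).card else 0 := by
    split_ifs with hd
    · rw [Finset.prod_congr rfl (fun i hi => if_neg
        (fun h' => (Finset.mem_sdiff.1 hi).2 (hd h'))), Finset.prod_const]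
    · rw [Finset.not_subset] at hd
      obtain ⟨i, h1, h2⟩ := hd
      exact Finset.prod_eq_zero (Finset.mem_sdiff.2 ⟨hA h1, h2⟩) (if_pos h1)
  rw [e1, e2]
  unfold wt
  by_cases h1 : A ⊆ t <;> by_cases h2 : Disjoint t K <;> simp [h1, h2]

theorem wt_nonneg (P t : Finset α) {p : ℝ} (h0 : 0 ≤ p) (h1 : p ≤ 1) : 0 ≤ wt P p t :=
  mul_nonneg (pow_nonneg h0 _) (pow_nonneg (by linarith) _)

theorem mean_card (P : Finset α) (p : ℝ) :
    ∑ t ∈ P.powerset, wt P p t * (t.card : ℝ) = p * P.card := by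
  have h1 : ∀ t ∈ P.powerset, wt P p t * (t.card : ℝ) =
      ∑ x ∈ P, if x ∈ t then wt P p t else 0 := by
    intro t ht
    rw [← Finset.sum_filter, Finset.filter_mem_eq_inter,
      Finset.inter_eq_right.2 (Finset.mem_powerset.1 ht), Finset.sum_const, nsmul_eq_mul, mul_comm]
  rw [Finset.sum_congr rfl h1, Finset.sum_comm]
  have h2 : ∀ x ∈ P, (∑ t ∈ P.powerset, if x ∈ t then wt P p t else 0) = p := by
    intro x hx
    have := prob P {x} ∅ (by simpa using hx) (by simp) (by simp) p
    simp only [Finset.singleton_subset_iff, Finset.disjoint_empty_right, and_true,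
      Finset.card_singleton, pow_one, Finset.card_empty, pow_zero, mul_one] at this
    rw [← Finset.sum_filter, this]
  rw [Finset.sum_congr rfl h2, Finset.sum_const, nsmul_eq_mul, mul_comm]

theorem third (m : ℕ) : (1 : ℝ) / 3 ≤ (1 - 1 / ((m : ℝ) + 1)) ^ m := by
  rcases Nat.eq_zero_or_pos m with rfl | hm
  · norm_num
  have hm' : (0 : ℝ) < m := by exact_mod_cast hm
  have h1 : (1 - 1 / ((m : ℝ) + 1)) = (1 + 1 / (m : ℝ))⁻¹ := by
    field_simp
    ring
  have h2 : (1 + 1 / (m : ℝ)) ^ m ≤ 3 := by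
    have h3 : 1 + 1 / (m : ℝ) ≤ Real.exp (1 / m) := by
      have := Real.add_one_le_exp (1 / (m : ℝ)); linarith
    calc (1 + 1 / (m : ℝ)) ^ m ≤ Real.exp (1 / m) ^ m := by
          apply pow_le_pow_left₀ (by positivity) h3
      _ = Real.exp 1 := by
          rw [← Real.exp_nat_mul]; congr 1; field_simp
      _ ≤ 3 := by have := Real.exp_one_lt_d9; linarith
  rw [h1, inv_pow, one_div]
  apply inv_anti₀ (by positivity) h2

/-- **Sampling lemma.** Objects `L ∈ Ob` are defined by a two-element set `A L` and have a set of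
conflicts `K L`. If for every `R ⊆ P` at most `b |R|` objects are defined by elements of `R` and have no
conflict in `R`, then at most `3 b (m + 1) |P|` objects have at most `m` conflicts. -/
theorem sampling {β : Type} (P : Finset α) (Ob : Finset β) (A K : β → Finset α)
    (hA : ∀ L ∈ Ob, A L ⊆ P ∧ (A L).card = 2) (hK : ∀ L ∈ Ob, K L ⊆ P)
    (hAK : ∀ L ∈ Ob, Disjoint (A L) (K L)) (b : ℕ)
    (hR : ∀ R ⊆ P, (Ob.filter fun L => A L ⊆ R ∧ Disjoint R (K L)).card ≤ b * R.card) (m : ℕ)
    (hm : ∀ L ∈ Ob, (K L).card ≤ m) : Ob.card ≤ 3 * b * (m + 1) * P.card := by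
  set p : ℝ := 1 / ((m : ℝ) + 1) with hp
  have hm0 : (0 : ℝ) < (m : ℝ) + 1 := by positivity
  have hp0 : 0 < p := by positivity
  have hp1 : p ≤ 1 := by
    rw [hp, div_le_one hm0]; have : (0 : ℝ) ≤ m := Nat.cast_nonneg m; linarith
  have e1 : (Ob.card : ℝ) * (p ^ 2 * (1 / 3)) ≤ ∑ L ∈ Ob, p ^ (A L).card * (1 - p) ^ (K L).card := by
    rw [← nsmul_eq_mul]
    apply Finset.card_nsmul_le_sum
    intro L hL
    rw [(hA L hL).2]
    apply mul_le_mul_of_nonneg_left _ (by positivity)
    refine (third m).trans ?_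
    apply pow_le_pow_of_le_one (by rw [← hp]; linarith) (by rw [← hp]; linarith) (hm L hL)
  have e2 : ∑ L ∈ Ob, p ^ (A L).card * (1 - p) ^ (K L).card =
      ∑ t ∈ P.powerset, wt P p t * ((Ob.filter fun L => A L ⊆ t ∧ Disjoint t (K L)).card : ℝ) := by
    have h1 : ∀ L ∈ Ob, p ^ (A L).card * (1 - p) ^ (K L).card =
        ∑ t ∈ P.powerset, if A L ⊆ t ∧ Disjoint t (K L) then wt P p t else 0 := by
      intro L hL
      rw [← Finset.sum_filter, prob P (A L) (K L) (hA L hL).1 (hK L hL) (hAK L hL) p]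
    rw [Finset.sum_congr rfl h1, Finset.sum_comm]
    apply Finset.sum_congr rfl
    intro t _
    rw [← Finset.sum_filter, Finset.sum_const, nsmul_eq_mul, mul_comm]
  have e3 : ∑ t ∈ P.powerset, wt P p t *
      ((Ob.filter fun L => A L ⊆ t ∧ Disjoint t (K L)).card : ℝ) ≤
      ∑ t ∈ P.powerset, b * (wt P p t * (t.card : ℝ)) := by
    apply Finset.sum_le_sum
    intro t ht
    have h1 := hR t (Finset.mem_powerset.1 ht)
    have h2 : ((Ob.filter fun L => A L ⊆ t ∧ Disjoint t (K L)).card : ℝ) ≤ b * t.card := by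
      exact_mod_cast h1
    calc _ ≤ wt P p t * (b * t.card) := mul_le_mul_of_nonneg_left h2 (wt_nonneg P t hp0.le hp1)
      _ = _ := by ring
  rw [← Finset.mul_sum, mean_card] at e3
  have e4 : (Ob.card : ℝ) * (p ^ 2 * (1 / 3)) ≤ b * (p * P.card) := by
    calc _ ≤ _ := e1
      _ = _ := e2
      _ ≤ _ := e3
  have e5 : (Ob.card : ℝ) ≤ 3 * b * (m + 1) * P.card := by
    have h1 : p * (m + 1) = 1 := by rw [hp]; field_simp
    have h2 : (Ob.card : ℝ) * p ≤ 3 * b * P.card := by
      have h3 : p * ((Ob.card : ℝ) * p) ≤ p * (3 * b * P.card) := by nlinarith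
      exact le_of_mul_le_mul_left h3 hp0
    calc (Ob.card : ℝ) = (Ob.card : ℝ) * (p * (m + 1)) := by rw [h1, mul_one]
      _ = ((Ob.card : ℝ) * p) * (m + 1) := by ring
      _ ≤ (3 * b * P.card) * (m + 1) := mul_le_mul_of_nonneg_right h2 hm0.le
      _ = _ := by ring
  exact_mod_cast e5

end Pool.Agent.X130.HC
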