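import Pool.Agent.X130.HC.A

/-!
# Lines spanned by a point set with few points between the line and its reflection in a centre
-/

set_option autoImplicit false

namespace Pool.Agent.X130.HC

open Finset

/-- the inner product of `x - c` and `v` -/
def ip (c x v : ℝ × ℝ) : ℝ := (x.1 - c.1) * v.1 + (x.2 - c.2) * v.2

/-- the determinant of `x - c` and `v` -/
def kp (c x v : ℝ × ℝ) : ℝ := (x.1 - c.1) * v.2 - (x.2 - c.2) * v.1

/-- the squared norm of `x - c` -/
def nm (c x : ℝ × ℝ) : ℝ := (x.1 - c.1) ^ 2 + (x.2 - c.2) ^ 2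

theorem far_point {c r q v w : ℝ × ℝ} (hq : q ≠ r) (hn : nm c q ≤ nm c r)
    (hv : ip c r v = 1) (hw : ip c r w = 1) (hqw : ip c q w = 1)
    (hs : 0 ≤ kp c r v * kp c r w) (hlt : |kp c r v| < |kp c r w|) : |ip c q v| < 1 := by
  -- coordinates
  set N := nm c r with hN
  set α := (q.1 - c.1) * (r.1 - c.1) + (q.2 - c.2) * (r.2 - c.2) with hα
  set β := (r.1 - c.1) * (q.2 - c.2) - (r.2 - c.2) * (q.1 - c.1) with hβ
  set k := kp c r v with hk
  set l := kp c r w with hl
  have hN0 : 0 < N := by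
    rcases (show 0 ≤ N by rw [hN]; unfold nm; positivity).lt_or_eq with h | h
    · exact h
    · exfalso
      rw [hN] at h
      unfold nm at h
      have h1 : r.1 - c.1 = 0 := by nlinarith [sq_nonneg (r.1 - c.1), sq_nonneg (r.2 - c.2)]
      have h2 : r.2 - c.2 = 0 := by nlinarith [sq_nonneg (r.1 - c.1), sq_nonneg (r.2 - c.2)]
      unfold ip at hv
      rw [h1, h2] at hv
      norm_num at hv
  have i1 : N * ip c q v = α + β * k := by
    have h1 : N * ip c q v = α * ip c r v + β * kp c r v := by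
      rw [hN, hα, hβ]; unfold nm ip kp; ring
    rw [h1, hv, mul_one]
  have i2 : N * ip c q w = α + β * l := by
    have h1 : N * ip c q w = α * ip c r w + β * kp c r w := by
      rw [hN, hα, hβ]; unfold nm ip kp; ring
    rw [h1, hw, mul_one]
  rw [hqw, mul_one] at i2
  have i3 : α ^ 2 + β ^ 2 = N * nm c q := by rw [hN, hα, hβ]; unfold nm; ring
  have i4 : α ^ 2 + β ^ 2 ≤ N ^ 2 := by rw [i3, sq]; exact mul_le_mul_of_nonneg_left hn hN0.le
  have i5 : α = N - β * l := by linarith
  have hl0 : l ≠ 0 := by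
    intro h0; rw [h0, abs_zero] at hlt; exact absurd hlt (not_lt.2 (abs_nonneg _))
  have hβ0 : β ≠ 0 := by
    intro h0
    rw [h0, zero_mul, sub_zero] at i5
    apply hq
    have h1 : nm c q = N := by
      have : N * nm c q = N * N := by rw [← i3, h0, i5]; ring
      exact mul_left_cancel₀ hN0.ne' this
    have h2 : (q.1 - r.1) ^ 2 + (q.2 - r.2) ^ 2 = 0 := by
      have : (q.1 - r.1) ^ 2 + (q.2 - r.2) ^ 2 = nm c q - 2 * α + N := by
        rw [hα, hN]; unfold nm; ring
      rw [this, h1, i5]; ring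
    have h3 : q.1 - r.1 = 0 := by nlinarith [sq_nonneg (q.1 - r.1), sq_nonneg (q.2 - r.2)]
    have h4 : q.2 - r.2 = 0 := by nlinarith [sq_nonneg (q.1 - r.1), sq_nonneg (q.2 - r.2)]
    exact Prod.ext (by linarith) (by linarith)
  have i6 : β ^ 2 * (1 + l ^ 2) ≤ 2 * N * (β * l) := by
    rw [i5] at i4; nlinarith
  have hβ2 : 0 < β ^ 2 := by positivity
  have i7 : 0 < β * l := by
    have h1 : 0 < β ^ 2 * (1 + l ^ 2) := by positivity
    have h2 : 0 < (2 * N) * (β * l) := lt_of_lt_of_le h1 i6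
    exact (mul_pos_iff_of_pos_left (by linarith)).1 h2
  have i8 : β * l < 2 * N := by
    have h1 : (β * l) * (β * l * (1 + l ^ 2)) ≤ 2 * N * (β * l) * l ^ 2 := by
      have := mul_le_mul_of_nonneg_right i6 (sq_nonneg l)
      nlinarith
    have h2 : β * l * (1 + l ^ 2) ≤ 2 * N * l ^ 2 := by
      have : (β * l) * (β * l * (1 + l ^ 2)) ≤ (β * l) * (2 * N * l ^ 2) := by nlinarith
      exact le_of_mul_le_mul_left this i7
    by_contra hcon
    push Not at hcon
    have h3 : 2 * N * (1 + l ^ 2) ≤ β * l * (1 + l ^ 2) :=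
      mul_le_mul_of_nonneg_right hcon (by positivity)
    nlinarith
  -- k is between 0 and l
  have i9 : N * ip c q v = N - (β * l - β * k) := by rw [i1, i5]; ring
  have i10 : 0 ≤ β * k := by
    have h1 : 0 ≤ (β * l) * (β * k) * l ^ 2 := by
      have : (β * l) * (β * k) * l ^ 2 = β ^ 2 * (k * l) * l ^ 2 := by ring
      rw [this]; positivity
    have hl2 : 0 < l ^ 2 := by positivity
    have h2 : 0 ≤ (β * l) * (β * k) := nonneg_of_mul_nonneg_left h1 hl2
    exact nonneg_of_mul_nonneg_right h2 i7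
  have i11 : β * k < β * l := by
    have h1 : |β * k| < |β * l| := by
      rw [abs_mul, abs_mul]; exact mul_lt_mul_of_pos_left hlt (abs_pos.2 hβ0)
    rwa [abs_of_nonneg i10, abs_of_pos i7] at h1
  rw [abs_lt]
  constructor
  · have : N * (-1) < N * ip c q v := by rw [i9]; linarith
    exact lt_of_mul_lt_mul_left this hN0.le
  · have : N * ip c q v < N * 1 := by rw [i9]; linarith
    exact lt_of_mul_lt_mul_left this hN0.le

/-- `v` is determined by `ip c r v` and `kp c r v` -/
theorem v_ext {c r v w : ℝ × ℝ} (hv : ip c r v = 1) (hw : ip c r w = 1)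
    (h : kp c r v = kp c r w) : v = w := by
  unfold ip at hv hw
  unfold kp at h
  set a := r.1 - c.1
  set b := r.2 - c.2
  have hN : 0 < a ^ 2 + b ^ 2 := by
    by_contra h'
    have h3 : a = 0 := by nlinarith [sq_nonneg a, sq_nonneg b]
    have h4 : b = 0 := by nlinarith [sq_nonneg a, sq_nonneg b]
    rw [h3, h4] at hv; norm_num at hv
  have e1 : (a ^ 2 + b ^ 2) * (v.1 - w.1) = 0 := by linear_combination a * hv - a * hw - b * h
  have e2 : (a ^ 2 + b ^ 2) * (v.2 - w.2) = 0 := by linear_combination b * hv - b * hw + a * h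
  have e3 := (mul_eq_zero.1 e1).resolve_left hN.ne'
  have e4 := (mul_eq_zero.1 e2).resolve_left hN.ne'
  exact Prod.ext (by linarith) (by linarith)

/-- the line `ip c x v = 1` passes through two points of `R` -/
def Sp (c : ℝ × ℝ) (R : Finset (ℝ × ℝ)) (v : ℝ × ℝ) : Prop :=
  ∃ p ∈ R, ∃ q ∈ R, p ≠ q ∧ ip c p v = 1 ∧ ip c q v = 1

theorem two_at (c : ℝ × ℝ) (R : Finset (ℝ × ℝ)) (r : ℝ × ℝ) (hmax : ∀ x ∈ R, nm c x ≤ nm c r)
    (T : Finset (ℝ × ℝ)) (hT : ∀ v ∈ T, ip c r v = 1 ∧ (∃ q ∈ R, q ≠ r ∧ ip c q v = 1) ∧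
      ∀ x ∈ R, 1 ≤ |ip c x v|) : T.card ≤ 2 := by
  have key : ∀ v ∈ T, ∀ w ∈ T, v ≠ w → kp c r v * kp c r w < 0 := by
    intro v hv w hw hne
    by_contra hcon
    push Not at hcon
    obtain ⟨a1, ⟨q, hq, hqr, hqv⟩, a3⟩ := hT v hv
    obtain ⟨b1, ⟨q', hq', hqr', hqv'⟩, b3⟩ := hT w hw
    have hne' : kp c r v ≠ kp c r w := fun h => hne (v_ext a1 b1 h)
    rcases lt_trichotomy |kp c r v| |kp c r w| with h | h | h
    · exact absurd (a3 q' hq') (not_le.2 (far_point hqr' (hmax _ hq') a1 b1 hqv' hcon h))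
    · rcases abs_eq_abs.1 h with h' | h'
      · exact hne' h'
      · rw [h'] at hcon
        have h0 : kp c r w = 0 := by nlinarith [sq_nonneg (kp c r w)]
        rw [h0, neg_zero] at h'
        exact hne' (by rw [h', h0])
    · exact absurd (b3 q hq) (not_le.2 (far_point hqr (hmax _ hq) b1 a1 hqv
        (by rw [mul_comm]; exact hcon) h))
  by_contra hcon
  push Not at hcon
  obtain ⟨x, y, z, hx, hy, hz, hxy, hxz, hyz⟩ := Finset.two_lt_card_iff.1 hcon
  have h1 := key x hx y hy hxy
  have h2 := key x hx z hz hxz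
  have h3 := key y hy z hz hyz
  have h4 : 0 < (kp c r x * kp c r y) * (kp c r x * kp c r z) := mul_pos_of_neg_of_neg h1 h2
  have h5 : (kp c r x * kp c r y) * (kp c r x * kp c r z) * (kp c r y * kp c r z) < 0 :=
    mul_neg_of_pos_of_neg h4 h3
  have h6 : (kp c r x * kp c r y) * (kp c r x * kp c r z) * (kp c r y * kp c r z) =
      (kp c r x * kp c r y * kp c r z) ^ 2 := by ring
  rw [h6] at h5
  exact absurd h5 (not_lt.2 (sq_nonneg _))

/-- at most `2 |R|` lines spanned by `R` have no point of `R` between them and their reflection -/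
theorem empty_strips (c : ℝ × ℝ) (R : Finset (ℝ × ℝ)) : ∀ T : Finset (ℝ × ℝ),
    (∀ v ∈ T, Sp c R v ∧ ∀ x ∈ R, 1 ≤ |ip c x v|) → T.card ≤ 2 * R.card := by
  classical
  induction R using Finset.induction_on_max_value (nm c) with
  | empty =>
    intro T hT
    rw [Finset.card_empty, mul_zero, Nat.le_zero, Finset.card_eq_zero,
      Finset.eq_empty_iff_forall_notMem]
    intro v hv
    obtain ⟨⟨p, hp, -⟩, -⟩ := hT v hv
    simp at hp
  | insert r R hr hmax ih =>
    intro T hT
    have h1 := ih (T.filter fun v => Sp c R v) (by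
      intro v hv
      rw [Finset.mem_filter] at hv
      exact ⟨hv.2, fun x hx => (hT v hv.1).2 x (Finset.mem_insert_of_mem hx)⟩)
    have h2 := two_at c (insert r R) r (by
      intro x hx
      rcases Finset.mem_insert.1 hx with rfl | hx
      · exact le_rfl
      · exact hmax x hx) (T.filter fun v => ¬ Sp c R v) (by
      intro v hv
      rw [Finset.mem_filter] at hv
      obtain ⟨⟨p, hp, q, hq, hpq, hpv, hqv⟩, h3⟩ := hT v hv.1
      refine ⟨?_, ?_, h3⟩
      · rcases Finset.mem_insert.1 hp with rfl | hp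
        · exact hpv
        · rcases Finset.mem_insert.1 hq with rfl | hq
          · exact hqv
          · exact absurd ⟨p, hp, q, hq, hpq, hpv, hqv⟩ hv.2
      · rcases Finset.mem_insert.1 hp with rfl | hp'
        · exact ⟨q, hq, hpq.symm, hqv⟩
        · exact ⟨p, hp, fun h => hr (h ▸ hp'), hpv⟩)
    rw [Finset.card_insert_of_notMem hr, ← Finset.card_filter_add_card_filter_not (fun v => Sp c R v)]
    omega

/-- **Lines with few points in the central strip.** -/
theorem few_strips (c : ℝ × ℝ) (P : Finset (ℝ × ℝ)) (m : ℕ) (T : Finset (ℝ × ℝ))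
    (hT : ∀ v ∈ T, Sp c P v ∧ (P.filter fun x => |ip c x v| < 1).card ≤ m) :
    T.card ≤ 6 * (m + 1) * P.card := by
  classical
  have hch : ∀ v : ℝ × ℝ, ∃ A : Finset (ℝ × ℝ), v ∈ T →
      A ⊆ P ∧ A.card = 2 ∧ ∀ x ∈ A, ip c x v = 1 := by
    intro v
    by_cases hv : v ∈ T
    · obtain ⟨⟨p, hp, q, hq, hpq, hpv, hqv⟩, -⟩ := hT v hv
      refine ⟨{p, q}, fun _ => ⟨?_, Finset.card_pair hpq, ?_⟩⟩
      · intro x hx
        rcases Finset.mem_insert.1 hx with rfl | hx
        · exact hp
        · rw [Finset.mem_singleton.1 hx]; exact hq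
      · intro x hx
        rcases Finset.mem_insert.1 hx with rfl | hx
        · exact hpv
        · rw [Finset.mem_singleton.1 hx]; exact hqv
    · exact ⟨∅, fun h => absurd h hv⟩
  choose A hA using hch
  have := sampling P T A (fun v => P.filter fun x => |ip c x v| < 1)
    (fun v hv => ⟨(hA v hv).1, (hA v hv).2.1⟩) (fun v _ => Finset.filter_subset _ _)
    (fun v hv => by
      rw [Finset.disjoint_left]
      intro x hx hx'
      rw [Finset.mem_filter, (hA v hv).2.2 x hx] at hx'
      norm_num at hx') 2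
    (fun R hR => by
      apply empty_strips c R
      intro v hv
      rw [Finset.mem_filter] at hv
      obtain ⟨hv, h1, h2⟩ := hv
      constructor
      · obtain ⟨p, q, hpq, he⟩ := Finset.card_eq_two.1 (hA v hv).2.1
        have hp : p ∈ A v := by rw [he]; simp
        have hq : q ∈ A v := by rw [he]; simp
        exact ⟨p, h1 hp, q, h1 hq, hpq, (hA v hv).2.2 p hp, (hA v hv).2.2 q hq⟩
      · intro x hx
        by_contra hcon
        push Not at hcon
        exact Finset.disjoint_left.1 h2 hx (Finset.mem_filter.2 ⟨hR hx, hcon⟩)) m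
    (fun v hv => (hT v hv).2)
  calc T.card ≤ _ := this
    _ = _ := by ring

end Pool.Agent.X130.HC
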