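import Pool.Agent.X130.HC.B

/-!
# Bisectors and centres of approximate symmetry
-/

set_option autoImplicit false

namespace Pool.Agent.X130.HC

open Finset

/-- The set of points `(x, y)` of the plane with `a x + b y = t`. -/
def Line (a b t : ℝ) : Set (ℝ × ℝ) := {p | a * p.1 + b * p.2 = t}

open scoped Classical in
/-- `L` is a bisector (halving line) of `P`: a line through two points of `P` such that each of
the two open half-planes bounded by it contains exactly `|P| / 2 - 1` points of `P`. -/
def IsBisector (P : Finset (ℝ × ℝ)) (L : Set (ℝ × ℝ)) : Prop :=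
  ∃ a b t : ℝ, (a ≠ 0 ∨ b ≠ 0) ∧ L = Line a b t ∧
    (∃ p ∈ P, ∃ q ∈ P, p ≠ q ∧ p ∈ L ∧ q ∈ L) ∧
    (P.filter (fun p => a * p.1 + b * p.2 < t)).card = P.card / 2 - 1 ∧
    (P.filter (fun p => t < a * p.1 + b * p.2)).card = P.card / 2 - 1

/-- the reflection of the point `x` in the centre `c` -/
def refl (c x : ℝ × ℝ) : ℝ × ℝ := (2 * c.1 - x.1, 2 * c.2 - x.2)

open scoped Classical in
/-- `L` is a line which does not contain the centre `c`, and if `H` is the open half-plane bounded by
`L` which does not contain `c`, then `H` contains at most `m` more points of `P` than the reflection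
of `H` in `c`. -/
def DefectLE (P : Finset (ℝ × ℝ)) (c : ℝ × ℝ) (m : ℕ) (L : Set (ℝ × ℝ)) : Prop :=
  ∃ a b t : ℝ, a * c.1 + b * c.2 < t ∧ L = Line a b t ∧
    (P.filter (fun x => t < a * x.1 + b * x.2)).card ≤
      (P.filter (fun x => t < a * (refl c x).1 + b * (refl c x).2)).card + m

theorem parallel {a b t a' b' t' : ℝ} {p q : ℝ × ℝ} (hpq : p ≠ q) (h' : a' ≠ 0 ∨ b' ≠ 0)
    (hp : p ∈ Line a b t) (hq : q ∈ Line a b t) (hp' : p ∈ Line a' b' t')
    (hq' : q ∈ Line a' b' t') : ∃ l : ℝ, a = l * a' ∧ b = l * b' ∧ t = l * t' := by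
  simp only [Line, Set.mem_setOf_eq] at hp hq hp' hq'
  have h1 : a * (p.1 - q.1) + b * (p.2 - q.2) = 0 := by linarith
  have h2 : a' * (p.1 - q.1) + b' * (p.2 - q.2) = 0 := by linarith
  have hd : (p.1 - q.1) ^ 2 + (p.2 - q.2) ^ 2 ≠ 0 := by
    intro h0
    apply hpq
    have h3 : p.1 - q.1 = 0 := by nlinarith [sq_nonneg (p.1 - q.1), sq_nonneg (p.2 - q.2)]
    have h4 : p.2 - q.2 = 0 := by nlinarith [sq_nonneg (p.1 - q.1), sq_nonneg (p.2 - q.2)]
    exact Prod.ext (by linarith) (by linarith)
  have h3 : a * b' = a' * b := by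
    have : ((p.1 - q.1) ^ 2 + (p.2 - q.2) ^ 2) * (a * b' - a' * b) = 0 := by
      linear_combination (b' * (p.1 - q.1) - a' * (p.2 - q.2)) * h1 -
        (b * (p.1 - q.1) - a * (p.2 - q.2)) * h2
    have := (mul_eq_zero.1 this).resolve_left hd
    linarith
  have hN : a' ^ 2 + b' ^ 2 ≠ 0 := by
    intro h0
    have h4 : a' = 0 := by nlinarith [sq_nonneg a', sq_nonneg b']
    have h5 : b' = 0 := by nlinarith [sq_nonneg a', sq_nonneg b']
    rcases h' with h | h
    · exact h h4
    · exact h h5
  have ha : a = (a * a' + b * b') / (a' ^ 2 + b' ^ 2) * a' := by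
    field_simp
    linear_combination b' * h3
  have hb : b = (a * a' + b * b') / (a' ^ 2 + b' ^ 2) * b' := by
    field_simp
    linear_combination (-a') * h3
  refine ⟨_, ha, hb, ?_⟩
  rw [← hp, ← hp']
  calc a * p.1 + b * p.2 = ((a * a' + b * b') / (a' ^ 2 + b' ^ 2) * a') * p.1 +
        ((a * a' + b * b') / (a' ^ 2 + b' ^ 2) * b') * p.2 := by rw [← ha, ← hb]
    _ = _ := by ring

theorem line_unique {a b t a' b' t' : ℝ} {p q : ℝ × ℝ} (hpq : p ≠ q) (h : a ≠ 0 ∨ b ≠ 0)
    (h' : a' ≠ 0 ∨ b' ≠ 0) (hp : p ∈ Line a b t) (hq : q ∈ Line a b t) (hp' : p ∈ Line a' b' t')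
    (hq' : q ∈ Line a' b' t') : Line a b t = Line a' b' t' := by
  obtain ⟨l, h1, h2, h3⟩ := parallel hpq h' hp hq hp' hq'
  have hl : l ≠ 0 := by
    rintro rfl
    rw [zero_mul] at h1 h2
    rcases h with h | h
    · exact h h1
    · exact h h2
  ext x
  simp only [Line, Set.mem_setOf_eq]
  rw [h1, h2, h3]
  constructor
  · intro hx
    apply mul_left_cancel₀ hl
    linarith
  · intro hx
    linear_combination l * hx

open scoped Classical in
theorem sides {P : Finset (ℝ × ℝ)} {L : Set (ℝ × ℝ)} (hL : IsBisector P L) {a b t : ℝ}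
    (h : a ≠ 0 ∨ b ≠ 0) (he : L = Line a b t) :
    (P.filter (fun p => a * p.1 + b * p.2 < t)).card = P.card / 2 - 1 ∧
    (P.filter (fun p => t < a * p.1 + b * p.2)).card = P.card / 2 - 1 := by
  obtain ⟨a', b', t', hab', he', ⟨p, hp, q, hq, hpq, hpL, hqL⟩, h1, h2⟩ := hL
  obtain ⟨l, e1, e2, e3⟩ := parallel (a := a) (b := b) (t := t) hpq hab' (he ▸ hpL) (he ▸ hqL)
    (he' ▸ hpL) (he' ▸ hqL)
  have hl : l ≠ 0 := by
    rintro rfl
    rw [zero_mul] at e1 e2
    rcases h with h | h
    · exact h e1
    · exact h e2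
  have key : ∀ x : ℝ × ℝ, a * x.1 + b * x.2 - t = l * (a' * x.1 + b' * x.2 - t') := by
    intro x; rw [e1, e2, e3]; ring
  rcases lt_or_gt_of_ne hl with hl | hl
  · constructor
    · rw [← h2]
      congr 1
      apply Finset.filter_congr
      intro x _
      rw [← sub_neg, key x]
      constructor
      · intro h
        have := pos_of_mul_neg_right h hl.le
        linarith
      · intro h
        exact mul_neg_of_neg_of_pos hl (by linarith)
    · rw [← h1]
      congr 1
      apply Finset.filter_congr
      intro x _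
      rw [← sub_pos, key x]
      constructor
      · intro h
        have := neg_of_mul_pos_right h hl.le
        linarith
      · intro h
        exact mul_pos_of_neg_of_neg hl (by linarith)
  · constructor
    · rw [← h1]
      congr 1
      apply Finset.filter_congr
      intro x _
      rw [← sub_neg, key x]
      constructor
      · intro h
        have := neg_of_mul_neg_right h hl.le
        linarith
      · intro h
        exact mul_neg_of_pos_of_neg hl (by linarith)
    · rw [← h2]
      congr 1
      apply Finset.filter_congr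
      intro x _
      rw [← sub_pos, key x]
      constructor
      · intro h
        have := pos_of_mul_pos_right h hl.le
        linarith
      · intro h
        exact mul_pos hl (by linarith)

open scoped Classical in
theorem to_vec {P : Finset (ℝ × ℝ)} (hE : Even P.card) {c : ℝ × ℝ} {m : ℕ} {L : Set (ℝ × ℝ)}
    (hL : IsBisector P L) (hD : DefectLE P c m L) :
    ∃ v : ℝ × ℝ, L = {x | ip c x v = 1} ∧ Sp c P v ∧ (P.filter fun x => |ip c x v| < 1).card ≤ m := by
  obtain ⟨a, b, t, ht, he, hd⟩ := hD
  obtain ⟨a', b', t', -, -, ⟨p, hp, q, hq, hpq, hpL, hqL⟩, -, -⟩ := id hL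
  have hab : a ≠ 0 ∨ b ≠ 0 := by
    by_contra hcon
    push Not at hcon
    rw [he, hcon.1, hcon.2] at hpL
    simp only [Line, Set.mem_setOf_eq, zero_mul, add_zero] at hpL
    rw [hcon.1, hcon.2] at ht
    simp only [zero_mul, add_zero] at ht
    exact absurd hpL.symm ht.ne'
  obtain ⟨s1, s2⟩ := sides hL hab he
  set s := t - (a * c.1 + b * c.2) with hs
  have hs0 : 0 < s := by rw [hs]; linarith
  have hip : ∀ x : ℝ × ℝ, ip c x (a / s, b / s) = 1 + (a * x.1 + b * x.2 - t) / s := by
    intro x
    unfold ip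
    field_simp
    rw [hs]; ring
  have hip2 : ∀ x : ℝ × ℝ, ip c x (a / s, b / s) = -(1 + (a * (refl c x).1 + b * (refl c x).2 - t) / s) := by
    intro x
    have : ip c x (a / s, b / s) = - ip c (refl c x) (a / s, b / s) := by unfold ip refl; ring
    rw [this, hip]
  have k1 : ∀ x : ℝ × ℝ, ip c x (a / s, b / s) = 1 ↔ a * x.1 + b * x.2 = t := by
    intro x
    rw [hip x]
    constructor
    · intro h
      have h1 : (a * x.1 + b * x.2 - t) / s = 0 := by linarith
      rcases div_eq_zero_iff.1 h1 with h1 | h1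
      · linarith
      · exact absurd h1 hs0.ne'
    · intro h; rw [h]; simp
  have k2 : ∀ x : ℝ × ℝ, 1 < ip c x (a / s, b / s) ↔ t < a * x.1 + b * x.2 := by
    intro x
    rw [hip x]
    constructor
    · intro h
      have h1 : 0 < (a * x.1 + b * x.2 - t) / s := by linarith
      have := (div_pos_iff_of_pos_right hs0).1 h1
      linarith
    · intro h
      have : 0 < (a * x.1 + b * x.2 - t) / s := div_pos (by linarith) hs0
      linarith
  have k3 : ∀ x : ℝ × ℝ, ip c x (a / s, b / s) < -1 ↔
      t < a * (refl c x).1 + b * (refl c x).2 := by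
    intro x
    rw [hip2 x]
    constructor
    · intro h
      have h1 : 0 < (a * (refl c x).1 + b * (refl c x).2 - t) / s := by linarith
      have := (div_pos_iff_of_pos_right hs0).1 h1
      linarith
    · intro h
      have : 0 < (a * (refl c x).1 + b * (refl c x).2 - t) / s := div_pos (by linarith) hs0
      linarith
  have hLv : L = {x | ip c x (a / s, b / s) = 1} := by
    rw [he]
    ext x
    simp only [Line, Set.mem_setOf_eq]
    exact (k1 x).symm
  refine ⟨(a / s, b / s), hLv, ⟨p, hp, q, hq, hpq, ?_, ?_⟩, ?_⟩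
  · rw [hLv] at hpL; exact hpL
  · rw [hLv] at hqL; exact hqL
  -- the counts
  have c1 : (P.filter (fun p => a * p.1 + b * p.2 < t)).card +
      (P.filter (fun p => a * p.1 + b * p.2 = t)).card +
      (P.filter (fun p => t < a * p.1 + b * p.2)).card = P.card := by
    rw [Finset.card_filter, Finset.card_filter, Finset.card_filter, ← Finset.sum_add_distrib,
      ← Finset.sum_add_distrib, Finset.card_eq_sum_ones]
    apply Finset.sum_congr rfl
    intro x _
    rcases lt_trichotomy (a * x.1 + b * x.2) t with h | h | h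
    · simp [h, h.ne, h.le]
    · simp [h]
    · simp [h, h.ne', h.le]
  have c2 : (P.filter fun x => |ip c x (a / s, b / s)| < 1).card +
      (P.filter (fun p => a * p.1 + b * p.2 = t)).card +
      (P.filter (fun p => t < a * p.1 + b * p.2)).card +
      (P.filter (fun x => t < a * (refl c x).1 + b * (refl c x).2)).card ≤ P.card := by
    rw [Finset.card_filter, Finset.card_filter, Finset.card_filter, Finset.card_filter,
      ← Finset.sum_add_distrib, ← Finset.sum_add_distrib, ← Finset.sum_add_distrib,
      Finset.card_eq_sum_ones]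
    apply Finset.sum_le_sum
    intro x _
    simp only [← k1 x, ← k2 x, ← k3 x]
    generalize ip c x (a / s, b / s) = y
    by_cases h1 : |y| < 1
    · have h1' := abs_lt.1 h1
      rw [if_pos h1, if_neg (by linarith), if_neg (by linarith), if_neg (by linarith)]
    · rw [if_neg h1]
      by_cases h2 : y = 1
      · rw [if_pos h2, if_neg (by linarith), if_neg (by linarith)]
      · rw [if_neg h2]
        by_cases h3 : 1 < y
        · rw [if_pos h3, if_neg (by linarith)]
        · rw [if_neg h3]
          split_ifs <;> norm_num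
  have c3 : 2 ≤ P.card := by
    have : ({p, q} : Finset (ℝ × ℝ)) ⊆ P := by
      intro x hx
      rcases Finset.mem_insert.1 hx with rfl | hx
      · exact hp
      · rw [Finset.mem_singleton.1 hx]; exact hq
    have h2 := Finset.card_le_card this
    rwa [Finset.card_pair hpq] at h2
  obtain ⟨h, hh⟩ := hE
  omega

theorem ncard_le_of {β : Type} (S : Set (Set (ℝ × ℝ))) (N : ℕ)
    (f : Set (ℝ × ℝ) → β) (hf : Set.InjOn f S)
    (h : ∀ T : Finset β, (∀ v ∈ T, ∃ L ∈ S, f L = v) → T.card ≤ N) : S.ncard ≤ N := by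
  classical
  by_cases hS : S.Finite
  · rw [Set.ncard_eq_toFinset_card S hS]
    have h1 : (hS.toFinset.image f).card = hS.toFinset.card := by
      apply Finset.card_image_of_injOn
      intro x hx y hy hxy
      exact hf (hS.mem_toFinset.1 hx) (hS.mem_toFinset.1 hy) hxy
    rw [← h1]
    apply h
    intro v hv
    obtain ⟨L, hL, rfl⟩ := Finset.mem_image.1 hv
    exact ⟨L, hS.mem_toFinset.1 hL, rfl⟩
  · rw [Set.Infinite.ncard hS]; exact Nat.zero_le _

theorem defect_count (P : Finset (ℝ × ℝ)) (hE : Even P.card) (c : ℝ × ℝ) (m : ℕ) :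
    {L | IsBisector P L ∧ DefectLE P c m L}.ncard ≤ 6 * (m + 1) * P.card := by
  classical
  have hch : ∀ L : Set (ℝ × ℝ), ∃ v : ℝ × ℝ, IsBisector P L ∧ DefectLE P c m L →
      (L = {x | ip c x v = 1} ∧ Sp c P v ∧ (P.filter fun x => |ip c x v| < 1).card ≤ m) := by
    intro L
    by_cases h : IsBisector P L ∧ DefectLE P c m L
    · obtain ⟨v, hv⟩ := to_vec hE h.1 h.2
      exact ⟨v, fun _ => hv⟩
    · exact ⟨0, fun h' => absurd h' h⟩
  choose f hf using hch
  apply ncard_le_of _ _ f
  · intro L hL M hM hLM
    rw [(hf L hL).1, (hf M hM).1, hLM]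
  · intro T hT
    apply few_strips c P m T
    intro v hv
    obtain ⟨L, hL, rfl⟩ := hT v hv
    exact (hf L hL).2

theorem centre_count (P : Finset (ℝ × ℝ)) (c : ℝ × ℝ) :
    {L | IsBisector P L ∧ c ∈ L}.ncard ≤ P.card := by
  classical
  have hch : ∀ L : Set (ℝ × ℝ), ∃ p : ℝ × ℝ, IsBisector P L ∧ c ∈ L →
      (p ∈ P ∧ p ≠ c ∧ p ∈ L) := by
    intro L
    by_cases h : IsBisector P L ∧ c ∈ L
    · obtain ⟨a, b, t, hab, he, ⟨p, hp, q, hq, hpq, hpL, hqL⟩, h1, h2⟩ := h.1
      by_cases hpc : p = c
      · exact ⟨q, fun _ => ⟨hq, fun h' => hpq (hpc.trans h'.symm), hqL⟩⟩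
      · exact ⟨p, fun _ => ⟨hp, hpc, hpL⟩⟩
    · exact ⟨0, fun h' => absurd h' h⟩
  choose f hf using hch
  apply ncard_le_of _ _ f
  · intro L hL M hM hLM
    obtain ⟨-, h2, h3⟩ := hf L hL
    obtain ⟨-, -, h6⟩ := hf M hM
    rw [← hLM] at h6
    obtain ⟨⟨a, b, t, hab, he, -⟩, hc⟩ := hL
    obtain ⟨⟨a', b', t', hab', he', -⟩, hc'⟩ := hM
    rw [he, he']
    exact line_unique h2 hab hab' (he ▸ h3) (he ▸ hc) (he' ▸ h6) (he' ▸ hc')
  · intro T hT
    apply Finset.card_le_card
    intro v hv
    obtain ⟨L, hL, rfl⟩ := hT v hv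
    exact (hf L hL).1

open scoped Classical in
theorem symmetric_count (P : Finset (ℝ × ℝ)) (hE : Even P.card) (c : ℝ × ℝ) (m : ℕ)
    (hm : (P.filter fun x => refl c x ∉ P).card ≤ m) :
    {L | IsBisector P L}.ncard ≤ (6 * m + 7) * P.card := by
  have hset : {L | IsBisector P L} =
      {L | IsBisector P L ∧ c ∈ L} ∪ {L | IsBisector P L ∧ DefectLE P c m L} := by
    ext L
    simp only [Set.mem_setOf_eq, Set.mem_union]
    constructor
    · intro hL
      by_cases hc : c ∈ L
      · exact Or.inl ⟨hL, hc⟩
      · refine Or.inr ⟨hL, ?_⟩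
        have hinj : ∀ a b t : ℝ,
            (P.filter (fun x => t < a * x.1 + b * x.2)).card ≤
            (P.filter (fun x => t < a * (refl c x).1 + b * (refl c x).2)).card + m := by
          intro a b t
          have h1 : (P.filter (fun x => t < a * x.1 + b * x.2)).card ≤
              ((P.filter (fun x => t < a * x.1 + b * x.2)).filter (fun x => refl c x ∈ P)).card +
              ((P.filter (fun x => t < a * x.1 + b * x.2)).filter (fun x => ¬ refl c x ∈ P)).card := by
            rw [Finset.card_filter_add_card_filter_not]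
          have h2 : ((P.filter (fun x => t < a * x.1 + b * x.2)).filter
              (fun x => ¬ refl c x ∈ P)).card ≤ m := by
            refine le_trans (Finset.card_le_card ?_) hm
            intro x hx
            simp only [Finset.mem_filter] at hx ⊢
            exact ⟨hx.1.1, hx.2⟩
          have hrr : ∀ x, refl c (refl c x) = x := by
            intro x; unfold refl; exact Prod.ext (by simp) (by simp)
          have h3 : ((P.filter (fun x => t < a * x.1 + b * x.2)).filter
              (fun x => refl c x ∈ P)).card ≤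
              (P.filter (fun x => t < a * (refl c x).1 + b * (refl c x).2)).card := by
            apply Finset.card_le_card_of_injOn (refl c)
            · intro x hx
              simp only [Finset.coe_filter, Finset.mem_filter, Set.mem_setOf_eq] at hx ⊢
              rw [hrr x]
              exact ⟨hx.2, hx.1.2⟩
            · intro x _ y _ hxy
              rw [← hrr x, ← hrr y, hxy]
          omega
        obtain ⟨a, b, t, hab, he, -⟩ := hL
        have hne : a * c.1 + b * c.2 ≠ t := by
          intro h; apply hc; rw [he]; exact h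
        rcases lt_or_gt_of_ne hne with h | h
        · exact ⟨a, b, t, h, he, hinj a b t⟩
        · refine ⟨-a, -b, -t, by linarith, ?_, hinj _ _ _⟩
          rw [he]
          ext x
          simp only [Line, Set.mem_setOf_eq]
          constructor <;> intro h' <;> linarith
    · rintro (h | h) <;> exact h.1
  rw [hset]
  refine (Set.ncard_union_le _ _).trans ?_
  have h1 := centre_count P c
  have h2 := defect_count P hE c m
  calc _ ≤ P.card + 6 * (m + 1) * P.card := Nat.add_le_add h1 h2
    _ = _ := by ring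

end Pool.Agent.X130.HC
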